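import Pool.Agent.H.MP_5be563_lc.Defs
import Pool.Agent.Lib.lead.CXGraphRed
import Pool.Agent.Lib.helper22.CXReach

namespace Pool.Agent.H.MP_5be563_lc

open Pool.Agent.Lib.CX Relation

def Rc (g : Gr) (A : ℕ → Prop) := ReflTransGen fun u v => A u ∧ A v ∧ g.adjB u v
def IP (g : Gr) (f : ℕ → ℕ) (t : ℕ) := ∀ i j, i < j → j < t → (g.adjB (f i) (f j) ↔ j = i + 1) ∧ f i ≠ f j

variable {g : Gr} {A C : ℕ → Prop} {x y z t : ℕ}

theorem sy (h : g.adjB x y) : g.adjB y x := by simp only [Gr.adjB, decide_eq_true_eq] at *; tauto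
theorem lt (h : g.adjB x y) : y < g.n := by simp only [Gr.adjB, decide_eq_true_eq] at *; tauto
theorem ir : ¬ g.adjB x x := by simp [Gr.adjB]

theorem Rc.mono (h : Rc g A x y) (e : ∀ x, A x → C x) : Rc g C x y := by
  induction h with
  | refl => exact .refl
  | tail _ i ih => exact ih.tail ⟨e _ i.1, e _ i.2.1, i.2.2⟩

theorem Rc.symm (h : Rc g A x y) : Rc g A y x := by
  induction h with
  | refl => exact .refl
  | tail _ f ih => exact ih.head ⟨f.2.1, f.1, sy f.2.2⟩

theorem short (hP : ∀ f, ¬ IP g f t) (h : Rc g A z y) (hz : A z) (hy : C y) (hn : z < g.n) : ∃ Z : List ℕ, Z.length = t ∧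
    z ∈ Z ∧ ∀ x ∈ Z, A x ∧ x < g.n ∧ ∃ b, C b ∧ Rc g (· ∈ Z) x b := by
  classical
  have e : ∃ l, ∃ f : ℕ → ℕ, f 0 = z ∧ C (f l) ∧ (∀ i ≤ l, A (f i)) ∧ ∀ i < l, g.adjB (f i) (f (i + 1)) := by
    clear hn
    induction h using ReflTransGen.head_induction_on with
    | refl => exact ⟨0, fun _ => y, rfl, hy, fun _ _ => hz, by simp⟩
    | @head a b e _ ih =>
      obtain ⟨l, f, f1, f2, f3, f4⟩ := ih e.2.1
      refine ⟨l + 1, fun i => if i = 0 then a else f (i - 1), rfl, f2, fun i j => ?_, fun i j => ?_⟩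
      · cases i; exacts [hz, f3 _ (by omega)]
      · cases i; exacts [by simpa [f1] using e.2.2, f4 _ (by omega)]
  obtain ⟨f, f1, f2, f3, f4⟩ := Nat.find_spec e
  have m := fun l => Nat.find_min e (m := l)
  generalize Nat.find e = l at *
  have s : ∀ i k, 0 < k → i + k < l → ¬ g.adjB (f i) (f (i + k + 1)) :=
    fun i k h1 h2 h3 => m (l - k) (by omega) ⟨fun j => if j ≤ i then f j else f (j + k), by simp [f1], by
      beta_reduce; rwa [if_neg (by omega), show l - k + k = l by omega], fun j r => by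
      beta_reduce; split_ifs <;> exact f3 _ (by omega), fun j r => by
      beta_reduce
      split_ifs with s u u
      · exact f4 j (by omega)
      · rwa [show j = i by omega, show i + 1 + k = i + k + 1 by omega]
      · omega
      · rw [show j + 1 + k = j + k + 1 by omega]; exact f4 _ (by omega)⟩
  have lt' : l < t := by
    refine lt_of_not_ge fun n => hP f fun i j a b => ⟨⟨fun c => by_contra fun d => s i (j - i - 1) (by omega) (by omega)
      (by rwa [show i + (j - i - 1) + 1 = j by omega]), fun c => c ▸ f4 i (by omega)⟩, fun c =>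
        s i (j - i) (by omega) (by omega) ?_⟩
    rw [show i + (j - i) = j by omega, c]; exact f4 j (by omega)
  have z : ∀ i ≤ l, f i ∈ (List.range t).map fun i => f (min i l) := fun i r =>
    List.mem_map.2 ⟨i, List.mem_range.2 (by omega), by rw [min_eq_left r]⟩
  refine ⟨_, by simp, f1 ▸ z 0 l.zero_le, fun x r => ?_⟩
  obtain ⟨i, -, rfl⟩ := List.mem_map.1 r
  have r := min_le_right i l
  generalize min i l = i at r
  refine ⟨f3 i r, by cases i; exacts [f1 ▸ hn, lt (f4 _ r)], f l, f2, ?_⟩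
  induction r using Nat.decreasingInduction with
  | self => exact .refl
  | of_succ k r ih => exact ih.head ⟨z k r.le, z _ r, f4 k r⟩

/-- graph, weights, terminals, root -/
abbrev I := Gr × List ℕ × List ℕ × ℕ

def rc (g : Gr) (A : List ℕ) (x y : ℕ) : Bool := reachB ((A ×ˢ A).filter fun e => g.adjB e.1 e.2, x, y)
def wt (a : I) (X B : List ℕ) : ℕ := ((List.range a.1.n).map fun x => if x ∈ X ∧ x ∉ B then a.2.1.getD x 0 else 0).sum
def val (a : I) (D B X : List ℕ) : Bool :=
  decide ((∀ x ∈ B, x ∈ X) ∧ (∀ x ∈ a.2.2.1, x ∈ D → x ∈ X) ∧ ∀ x ∈ X, rc a.1 X x a.2.2.2)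
def best (a : I) (D B : List ℕ) (L : List (List ℕ)) : List ℕ :=
  (L.find? fun X => decide (val a D B X ∧ ∀ Y ∈ L, val a D B Y → wt a X B ≤ wt a Y B)).getD B
def far (g : Gr) (D : List ℕ) (v : ℕ) : List ℕ := D.filter fun x => !g.adjB v x
def cmp (g : Gr) (D : List ℕ) (y : ℕ) : List ℕ := D.filter (rc g D y)
def reps (g : Gr) (D : List ℕ) : List ℕ := (List.range g.n).filter fun y => decide (y ∈ D ∧ ∀ x ∈ cmp g D y, y ≤ x)
def anc (g : Gr) (D : List ℕ) (v y : ℕ) : ℕ :=
  (D.find? fun u => decide (g.adjB v u ∧ ∃ x ∈ cmp g (far g D v) y, g.adjB u x)).getD 0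
def tups (n : ℕ) : ℕ → List (List ℕ)
  | 0 => [[]]
  | k + 1 => (List.range n).flatMap fun x => (tups n k).map (x :: ·)
def ext (a : I) (D : List ℕ) (v : ℕ) (B Z : List ℕ) : List ℕ := B ++ Z ++ a.2.2.1.filter fun x => decide (x ∈ D ∧ a.1.adjB v x)
def sol (t : ℕ) : ℕ → I × List ℕ × ℕ × List ℕ → List ℕ
  | 0, p => p.2.2.2
  | d + 1, p => best p.1 p.2.1 p.2.2.2 ((tups p.1.1.n t).map fun Z => ext p.1 p.2.1 p.2.2.1 p.2.2.2 Z ++
      (reps p.1.1 (far p.1.1 p.2.1 p.2.2.1)).flatMap fun y =>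
        sol t d (p.1, cmp p.1.1 (far p.1.1 p.2.1 p.2.2.1) y, anc p.1.1 p.2.1 p.2.2.1 y, ext p.1 p.2.1 p.2.2.1 p.2.2.2 Z))

section
variable {α : Type} [Enc α] {g : α → Gr} {a : α → I} {x y : α → ℕ} {D B X : α → List ℕ}

@[fun_prop] theorem PT.rc (hg : PT g) (hD : PT D) (hx : PT x) (hy : PT y) : PT fun i => rc (g i) (D i) (x i) (y i) := by
  unfold MP_5be563_lc.rc; fun_prop
@[fun_prop] theorem PT.wt (ha : PT a) (hX : PT X) (hB : PT B) : PT fun i => wt (a i) (X i) (B i) := by
  unfold MP_5be563_lc.wt; fun_prop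
@[fun_prop] theorem PT.val (ha : PT a) (hD : PT D) (hB : PT B) (hX : PT X) : PT fun i => val (a i) (D i) (B i) (X i) := by
  unfold MP_5be563_lc.val; fun_prop
@[fun_prop] theorem PT.best {L : α → List (List ℕ)} (ha : PT a) (hD : PT D) (hB : PT B) (hL : PT L) :
    PT fun i => best (a i) (D i) (B i) (L i) := by
  unfold MP_5be563_lc.best; fun_prop
@[fun_prop] theorem PT.far (hg : PT g) (hD : PT D) (hx : PT x) : PT fun i => far (g i) (D i) (x i) := by
  unfold MP_5be563_lc.far; fun_prop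
@[fun_prop] theorem PT.cmp (hg : PT g) (hD : PT D) (hx : PT x) : PT fun i => cmp (g i) (D i) (x i) := by
  unfold MP_5be563_lc.cmp; fun_prop
@[fun_prop] theorem PT.reps (hg : PT g) (hD : PT D) : PT fun i => reps (g i) (D i) := by
  unfold MP_5be563_lc.reps; fun_prop
@[fun_prop] theorem PT.anc (hg : PT g) (hD : PT D) (hx : PT x) (hy : PT y) : PT fun i => anc (g i) (D i) (x i) (y i) := by
  unfold MP_5be563_lc.anc; fun_prop
theorem PT.tups' (k : ℕ) : PT fun g : Gr => tups g.n k := by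
  induction k with
  | zero => exact .const _
  | succ k ih => exact PT.flatMap (PT.map (by fun_prop) (ih.comp PT.fst')) (by fun_prop)
@[fun_prop] theorem PT.tups (hg : PT g) (k : ℕ) : PT fun i => tups (g i).n k := (PT.tups' k).comp hg
@[fun_prop] theorem PT.ext (ha : PT a) (hD : PT D) (hx : PT x) (hB : PT B) (hX : PT X) :
    PT fun i => ext (a i) (D i) (x i) (B i) (X i) := by
  unfold MP_5be563_lc.ext; fun_prop
theorem PT.sol (t d : ℕ) : PT (sol t d) := by
  induction d with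
  | zero => exact (by fun_prop : PT fun p : I × List ℕ × ℕ × List ℕ => p.2.2.2)
  | succ d ih =>
    change PT fun p => MP_5be563_lc.sol t (d + 1) p
    simp only [MP_5be563_lc.sol]
    fun_prop
end

end Pool.Agent.H.MP_5be563_lc
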