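import Pool.Agent.H.MP_5be563_lc.A

namespace Pool.Agent.H.MP_5be563_lc

open Pool.Agent.Lib.CX Relation Finset Classical

variable {g : Gr} {D B X : List ℕ} {x y z t j : ℕ} {a : I} {S : ℕ → Prop} {f : ℕ → ℕ}

theorem rc_iff : rc g D x y ↔ Rc g (· ∈ D) x y := by
  rw [rc, reachB_iff, Rc]; simp only [List.mem_filter, List.mem_product, and_assoc]

theorem mem_cmp : x ∈ cmp g D y ↔ x ∈ D ∧ Rc g (· ∈ D) y x := by rw [cmp, List.mem_filter, rc_iff]
theorem mem_far : x ∈ far g D y ↔ x ∈ D ∧ ¬ g.adjB y x := by simp [far]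

theorem mem_tups {n : ℕ} {Z : List ℕ} (h : ∀ x ∈ Z, x < n) : Z ∈ tups n Z.length := by
  induction Z with
  | nil => simp [tups]
  | cons x Z ih => simpa [tups] using ⟨h x (by simp), ih fun y e => h y (by simp [e])⟩

theorem fd {α : Type} {l : List α} {p : α → Bool} (d : α) (h : ∃ x ∈ l, p x) :
    (l.find? p).getD d ∈ l ∧ p ((l.find? p).getD d) := by
  obtain ⟨x, e⟩ := Option.isSome_iff_exists.1 (List.find?_isSome.2 h)
  rw [e]; exact ⟨List.mem_of_find?_eq_some e, List.find?_some e⟩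

theorem best_ok {L : List (List ℕ)} (h : X ∈ L) (e : val a D B X) :
    val a D B (best a D B L) ∧ wt a (best a D B L) B ≤ wt a X B := by
  obtain ⟨Y, i, j⟩ := exists_min_image (L.toFinset.filter fun X => val a D B X) (wt a · B) ⟨X, by simp [h, e]⟩
  simp only [mem_filter, List.mem_toFinset] at i j
  have := (fd (p := fun X => decide (val a D B X ∧ ∀ Y ∈ L, val a D B Y → wt a X B ≤ wt a Y B)) B
    ⟨Y, i.1, decide_eq_true ⟨i.2, fun Z b d => j Z ⟨b, d⟩⟩⟩).2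
  rw [decide_eq_true_eq] at this
  exact ⟨this.1, this.2 X h e⟩

noncomputable def ws (a : I) (P : ℕ → Prop) : ℕ := ∑ x ∈ range a.1.n, if P x then a.2.1.getD x 0 else 0

theorem wt_eq : wt a X B = ws a fun x => x ∈ X ∧ x ∉ B := by
  unfold wt ws
  exact sum_congr (s₁ := range a.1.n) rfl fun x _ => by by_cases h : x ∈ X ∧ x ∉ B <;> simp only [h, if_true, if_false, and_self, not_false_eq_true]

def NN (g : Gr) (D : List ℕ) (x : ℕ) : Prop := x ∈ D ∨ ∃ y ∈ D, g.adjB x y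

structure Inv (a : I) (S : ℕ → Prop) (j : ℕ) (f : ℕ → ℕ) (D B : List ℕ) : Prop where
  ip : IP a.1 f (j + 1)
  nD : ∀ i ≤ j, f i ∉ D
  ac : ∀ i < j, ∀ x ∈ D, ¬ a.1.adjB (f i) x
  up : ∀ u ∉ D, ∀ x ∈ D, a.1.adjB u x → u = f j ∨ ∃ i < j, a.1.adjB u (f i)
  re : ∀ x ∈ D, ∃ u ∈ D, a.1.adjB (f j) u ∧ Rc a.1 (· ∈ D) u x
  r1 : a.2.2.2 ∈ B
  r2 : a.2.2.2 ∉ D
  cn : ∀ x ∈ B, Rc a.1 (· ∈ B) x a.2.2.2
  dom : ∀ s, S s → s ∉ D → ∀ x ∈ D, a.1.adjB s x → s ∈ B ∨ ∃ b ∈ B, a.1.adjB s b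

theorem Inv.ext (h : Inv a S j f D B) (e : x ∈ D) (i : a.1.adjB (f j) x) : IP a.1 (Function.update f (j + 1) x) (j + 2) :=
  fun k l b c => by
    rw [Function.update_of_ne (by omega)]
    by_cases d : l = j + 1
    · rw [d, Function.update_self]
      refine ⟨⟨fun m => by_contra fun n => h.ac k (by omega) x e m, fun m => ?_⟩, fun m => h.nD k (by omega) (m ▸ e)⟩
      rwa [show k = j by omega]
    · rw [Function.update_of_ne d]; exact h.ip k l b (by omega)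

theorem cmp_cl (e : x ∈ cmp g D y) (i : z ∈ D) (l : g.adjB z x) : z ∈ cmp g D y :=
  mem_cmp.2 ⟨i, (mem_cmp.1 e).2.tail ⟨(mem_cmp.1 e).1, i, sy l⟩⟩

theorem Inv.kid (h : Inv a S j f D B) (e : y ∈ far a.1 D (f j)) {B' : List ℕ} (h1 : ∀ x ∈ B, x ∈ B')
    (h2 : ∀ x ∈ B', Rc a.1 (· ∈ B') x a.2.2.2) (h3 : ∀ s, S s → s ∈ D → a.1.adjB (f j) s → s ∈ B' ∨ ∃ b ∈ B', a.1.adjB s b) :
    Inv a S (j + 1) (Function.update f (j + 1) (anc a.1 D (f j) y)) (cmp a.1 (far a.1 D (f j)) y) B' := by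
  have s : ∀ {x}, x ∈ cmp a.1 (far a.1 D (f j)) y → x ∈ D ∧ ¬ a.1.adjB (f j) x := fun i => mem_far.1 (mem_cmp.1 i).1
  have : ∃ u ∈ D, decide (a.1.adjB (f j) u ∧ ∃ x ∈ cmp a.1 (far a.1 D (f j)) y, a.1.adjB u x) := by
    obtain ⟨u, -, i, l⟩ := h.re y (mem_far.1 e).1
    have : ∀ x, Rc a.1 (· ∈ D) x y → x ∈ cmp a.1 (far a.1 D (f j)) y ∨ ∃ u ∈ D, decide (a.1.adjB (f j) u ∧
        ∃ x ∈ cmp a.1 (far a.1 D (f j)) y, a.1.adjB u x) := fun x l => by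
      induction l using ReflTransGen.head_induction_on with
      | refl => exact .inl (mem_cmp.2 ⟨e, .refl⟩)
      | @head b c l _ ih =>
        refine ih.elim (fun m => ?_) .inr
        by_cases n : a.1.adjB (f j) b
        exacts [.inr ⟨b, l.1, decide_eq_true ⟨n, c, m, l.2.2⟩⟩, .inl (cmp_cl m (mem_far.2 ⟨l.1, n⟩) l.2.2)]
    exact (this u l).resolve_left fun m => (s m).2 i
  obtain ⟨a1, a2⟩ := fd 0 this
  change anc a.1 D (f j) y ∈ D at a1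
  replace a2 : a.1.adjB (f j) (anc a.1 D (f j) y) ∧ ∃ x ∈ _, a.1.adjB (anc a.1 D (f j) y) x := of_decide_eq_true a2
  generalize anc a.1 D (f j) y = u at *
  obtain ⟨a2, w, a3, a4⟩ := a2
  have o : ∀ u ∉ cmp a.1 (far a.1 D (f j)) y, ∀ x ∈ cmp a.1 (far a.1 D (f j)) y, a.1.adjB u x → u ∈ D → a.1.adjB (f j) u :=
    fun u i x l m n => by_contra fun p => i (cmp_cl l (mem_far.2 ⟨n, p⟩) m)
  refine ⟨h.ext a1 a2, fun i l m => ?_, fun i l x m => ?_, fun v i x l m => .inr ?_, fun x i => ⟨w, a3, by simpa, ?_⟩,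
    h1 _ h.r1, fun i => h.r2 (s i).1, h2, fun v i l x m n => ?_⟩
  · by_cases d : i = j + 1
    · rw [d, Function.update_self] at m; exact (s m).2 a2
    · rw [Function.update_of_ne d] at m; exact h.nD i (by omega) (s m).1
  · rw [Function.update_of_ne l.ne]
    by_cases d : i = j
    exacts [d ▸ (s m).2, h.ac i (by omega) x (s m).1]
  · by_cases d : v ∈ D
    · exact ⟨j, by omega, by rw [Function.update_of_ne (by omega)]; exact sy (o v i x l m d)⟩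
    · obtain ⟨k, b, c⟩ := (h.up v d x (s l).1 m).resolve_left fun b => (s l).2 (b ▸ m)
      exact ⟨k, by omega, by rwa [Function.update_of_ne (by omega)]⟩
  · have : ∀ x, Rc a.1 (· ∈ far a.1 D (f j)) y x → Rc a.1 (· ∈ cmp a.1 (far a.1 D (f j)) y) y x := fun x l => by
      induction l with
      | refl => exact .refl
      | tail l m ih => exact ih.tail ⟨mem_cmp.2 ⟨m.1, l⟩, mem_cmp.2 ⟨m.2.1, l.tail m⟩, m.2.2⟩
    exact (this w (mem_cmp.1 a3).2).symm.trans (this x (mem_cmp.1 i).2)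
  · by_cases d : v ∈ D
    · exact h3 v i d (o v l x m n d)
    · exact (h.dom v i d x (s m).1 n).imp (h1 v) fun ⟨b, c, d⟩ => ⟨b, h1 b c, d⟩

variable (hP : ∀ f, ¬ IP a.1 f t) (hC : ∀ u x y z, a.1.adjB u x → a.1.adjB u y → a.1.adjB u z → x ≠ y → x ≠ z → y ≠ z →
  a.1.adjB x y ∨ a.1.adjB x z ∨ a.1.adjB y z) (hS : ∀ s, S s → Rc a.1 S s a.2.2.2) (hU : ∀ x ∈ a.2.2.1, S x)
  (hr : a.2.2.2 < a.1.n)

include hP hS hr in
theorem Inv.link (h : Inv a S j f D B) (Q : ℕ → Prop) : ∃ Z : List ℕ, Z.length = t ∧ (∀ x ∈ Z, (x ∈ B ∨ S x ∧ NN a.1 D x) ∧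
    x < a.1.n ∧ ∃ b ∈ B, Rc a.1 (· ∈ Z) x b) ∧ ((∃ z, S z ∧ z ∈ D ∧ Q z) → ∃ z ∈ Z, S z ∧ z ∈ D ∧ Q z) := by
  by_cases e : ∃ z, S z ∧ z ∈ D ∧ Q z
  swap
  · exact ⟨List.replicate t a.2.2.2, by simp, fun x i => (List.eq_of_mem_replicate i).symm ▸
      ⟨.inl h.r1, hr, _, h.r1, .refl⟩, fun i => (e i).elim⟩
  obtain ⟨z, e1, e2, e3⟩ := e
  have : ∀ x, Rc a.1 S x a.2.2.2 → x ∈ D → ∃ b ∈ B, Rc a.1 (fun x => x ∈ B ∨ S x ∧ NN a.1 D x) x b := fun x l => by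
    induction l using ReflTransGen.head_induction_on with
    | refl => exact fun i => (h.r2 i).elim
    | @head b c l _ ih =>
      intro i
      have m : S c ∧ NN a.1 D c := ⟨l.2.1, .inr ⟨b, i, sy l.2.2⟩⟩
      suffices ∃ d ∈ B, Rc a.1 (fun x => x ∈ B ∨ S x ∧ NN a.1 D x) c d from
        this.imp fun d n => ⟨n.1, n.2.head ⟨.inr ⟨l.1, .inl i⟩, .inr m, l.2.2⟩⟩
      by_cases n : c ∈ D
      · exact ih n
      · exact (h.dom c l.2.1 n b i (sy l.2.2)).elim (⟨c, ·, .refl⟩) fun ⟨d, o, p⟩ => ⟨d, o, .single ⟨.inr m, .inl o, p⟩⟩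
  obtain ⟨b, i, l⟩ := this z (hS z e1) e2
  obtain ⟨u, -, m, n⟩ := h.re z e2
  obtain ⟨Z, z1, z2, z3⟩ := short hP (C := (· ∈ B)) l (.inr ⟨e1, .inl e2⟩) i
    (n.cases_tail.elim (· ▸ lt m) fun ⟨_, _, o⟩ => lt o.2.2)
  exact ⟨Z, z1, z3, fun _ => ⟨z, z2, e1, e2, e3⟩⟩

include hP hC hS hU hr in
theorem main (d : ℕ) (h : Inv a S j f D B) (e : t ≤ j + d) : val a D B (sol (t + t) d (a, D, f j, B)) ∧
    wt a (sol (t + t) d (a, D, f j, B)) B ≤ ws a fun x => (S x ∧ NN a.1 D x) ∧ x ∉ B := by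
  induction d generalizing j f D B with
  | zero => exact (hP f fun i k b c => h.ip i k b (by omega)).elim
  | succ d ih =>
    obtain ⟨Y, y1, y2, y3⟩ := h.link hP hS hr fun z => a.1.adjB (f j) z
    obtain ⟨p, p1⟩ : ∃ p, ∀ s, S s → s ∈ D → a.1.adjB (f j) s → p ∈ Y ∧ p ∈ D ∧ a.1.adjB (f j) p := by
      by_cases i : ∃ z, S z ∧ z ∈ D ∧ a.1.adjB (f j) z
      exacts [(y3 i).imp fun p i _ _ _ _ => ⟨i.1, i.2.2⟩, ⟨0, fun s b c d => (i ⟨s, b, c, d⟩).elim⟩]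
    obtain ⟨Z, z1, z2, z3⟩ := h.link hP hS hr fun z => a.1.adjB (f j) z ∧ z ≠ p ∧ ¬ a.1.adjB z p
    have yz : ∀ x ∈ Y ++ Z, (x ∈ B ∨ S x ∧ NN a.1 D x) ∧ x < a.1.n ∧ ∃ b ∈ B, Rc a.1 (· ∈ Y ++ Z) x b := fun x i => by
      obtain i | i := List.mem_append.1 i
      · exact (y2 x i).imp_right (.imp_right (.imp fun b => .imp_right (·.mono fun _ => List.mem_append_left _)))
      · exact (z2 x i).imp_right (.imp_right (.imp fun b => .imp_right (·.mono fun _ => List.mem_append_right _)))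
    have dm : ∀ s, S s → s ∈ D → a.1.adjB (f j) s → s ∈ Y ++ Z ∨ ∃ b ∈ Y ++ Z, a.1.adjB s b := fun s b c d => by
      obtain ⟨p1, -, p2⟩ := p1 s b c d
      by_cases i : s = p
      · exact .inl (List.mem_append_left _ (i ▸ p1))
      by_cases l : a.1.adjB s p
      · exact .inr ⟨p, List.mem_append_left _ p1, l⟩
      obtain ⟨q, q1, -, -, q2, q3, q4⟩ := z3 ⟨s, b, c, d, i, l⟩
      by_cases m : s = q
      · exact .inl (List.mem_append_right _ (m ▸ q1))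
      · exact .inr ⟨q, List.mem_append_right _ q1, (hC _ s q p d q2 p2 m i q3).resolve_right (by simp [l, q4])⟩
    have tu : Y ++ Z ∈ tups a.1.n (t + t) := by simpa [y1, z1] using mem_tups fun x i => (yz x i).2.1
    generalize Y ++ Z = Z at yz dm tu
    have mb : ∀ {x}, x ∈ ext a D (f j) B Z ↔ x ∈ B ∨ x ∈ Z ∨ x ∈ a.2.2.1 ∧ x ∈ D ∧ a.1.adjB (f j) x := by simp [ext]
    generalize hB : ext a D (f j) B Z = B' at mb
    have c1 : ∀ x ∈ B, Rc a.1 (· ∈ B') x a.2.2.2 := fun x i => (h.cn x i).mono fun _ i => mb.2 (.inl i)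
    have c2 : ∀ x ∈ Z, Rc a.1 (· ∈ B') x a.2.2.2 := fun x i => (yz x i).2.2.elim fun b l =>
      (l.2.mono fun _ i => mb.2 (.inr (.inl i))).trans (c1 b l.1)
    have c3 : ∀ x ∈ B', Rc a.1 (· ∈ B') x a.2.2.2 := fun x i => (mb.1 i).elim (c1 x) fun l => l.elim (c2 x) fun l =>
      (dm x (hU x l.1) l.2.1 l.2.2).elim (c2 x) fun ⟨b, m, n⟩ => (c2 b m).head ⟨i, mb.2 (.inr (.inl m)), n⟩
    have K := fun y (i : y ∈ far a.1 D (f j)) => h.kid i (fun x i => mb.2 (.inl i)) c3 fun s b c d =>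
      (dm s b c d).imp (fun i => mb.2 (.inr (.inl i))) fun ⟨b, m, n⟩ => ⟨b, mb.2 (.inr (.inl m)), n⟩
    have R := fun y i => ih (K y i) (by omega)
    simp only [Function.update_self, val, decide_eq_true_eq, rc_iff] at R
    set F := far a.1 D (f j)
    set P := fun y => sol (t + t) d (a, cmp a.1 F y, anc a.1 D (f j) y, B')
    have mr : ∀ {y}, y ∈ reps a.1 F ↔ y < a.1.n ∧ y ∈ F ∧ ∀ x ∈ cmp a.1 F y, y ≤ x := by simp [reps]
    obtain ⟨b1, b2⟩ := best_ok (a := a) (D := D) (B := B) (X := B' ++ (reps a.1 F).flatMap P)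
      (List.mem_map.2 ⟨Z, tu, by simp only [hB]; rfl⟩ : _ ∈ (tups a.1.n (t + t)).map fun Z => ext a D (f j) B Z ++
        (reps a.1 F).flatMap fun y => sol (t + t) d (a, cmp a.1 F y, anc a.1 D (f j) y, ext a D (f j) B Z)) (by
      simp only [val, decide_eq_true_eq, rc_iff, List.mem_append, List.mem_flatMap]
      refine ⟨fun x i => .inl (mb.2 (.inl i)), fun x i l => ?_, fun x i => i.elim (fun i => (c3 x i).mono fun _ => .inl)
        fun ⟨y, i, l⟩ => ((R y (mr.1 i).2.1).1.2.2 x l).mono fun _ l => .inr ⟨y, i, l⟩⟩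
      by_cases m : a.1.adjB (f j) x
      · exact .inl (mb.2 (.inr (.inr ⟨i, l, m⟩)))
      have n : x ∈ cmp a.1 F x := mem_cmp.2 ⟨mem_far.2 ⟨l, m⟩, .refl⟩
      obtain ⟨y, o, q⟩ := exists_min_image (cmp a.1 F x).toFinset id ⟨x, List.mem_toFinset.2 n⟩
      simp only [List.mem_toFinset, id] at o q
      obtain ⟨u, -, r, s⟩ := h.re x l
      obtain ⟨o1, o2⟩ := mem_cmp.1 o
      exact .inr ⟨y, mr.2 ⟨(q x n).trans_lt (s.cases_tail.elim (· ▸ lt r) fun ⟨_, _, o⟩ => lt o.2.2), o1, fun z r =>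
        q z (mem_cmp.2 ⟨(mem_cmp.1 r).1, o2.trans (mem_cmp.1 r).2⟩)⟩,
        (R y o1).1.2.1 x i (mem_cmp.2 ⟨(mem_cmp.1 n).1, o2.symm⟩)⟩)
    refine ⟨b1, b2.trans ?_⟩
    have w1 := sum_le_sum fun y (i : y ∈ (reps a.1 F).toFinset) => (R y (mr.1 (List.mem_toFinset.1 i)).2.1).2
    refine le_trans (b := ws a (fun x => x ∈ B' ∧ x ∉ B) + _) ?_ ((Nat.add_le_add_left w1 _).trans ?_)
    all_goals
      simp only [wt_eq, ws]
      rw [sum_comm, ← sum_add_distrib]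
      refine sum_le_sum fun x _ => ?_
    · split_ifs with i l
      · exact Nat.le_add_right _ _
      · obtain ⟨y, m, n⟩ := List.mem_flatMap.1 ((List.mem_append.1 i.1).resolve_left fun m => l ⟨m, i.2⟩)
        rw [zero_add]
        exact le_trans (by rw [if_pos ⟨n, fun m => l ⟨m, i.2⟩⟩]) (single_le_sum (fun _ _ => Nat.zero_le _)
          (List.mem_toFinset.2 m))
      all_goals exact Nat.zero_le _
    by_cases i : x ∈ B'
    · simp only [i, not_true, and_false, if_false, sum_const_zero, add_zero, true_and]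
      by_cases l : x ∈ B
      · simp [l]
      · rw [if_pos l, if_pos ⟨((mb.1 i).resolve_left l).elim (fun m => (yz x m).1.resolve_left l)
          fun m => ⟨hU x m.1, .inl m.2.1⟩, l⟩]
    rw [if_neg fun l => i l.1, zero_add]
    by_cases l : ∃ y ∈ reps a.1 F, S x ∧ NN a.1 (cmp a.1 F y) x
    swap
    · exact (sum_eq_zero fun y m => if_neg fun n => l ⟨y, List.mem_toFinset.1 m, n.1⟩).trans_le (Nat.zero_le _)
    obtain ⟨y, l, m, n⟩ := l
    have s : ∀ {x y}, x ∈ cmp a.1 F y → x ∈ D ∧ ¬ a.1.adjB (f j) x := fun i => mem_far.1 (mem_cmp.1 i).1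
    refine (sum_eq_single_of_mem y (List.mem_toFinset.2 l) fun z o q => if_neg fun r => q ?_).trans_le (by
      rw [if_pos ⟨⟨m, n⟩, i⟩,
        if_pos ⟨⟨m, n.imp (fun n => (s n).1) fun ⟨b, c, d⟩ => ⟨b, (s c).1, d⟩⟩, fun o => i (mb.2 (.inl o))⟩])
    replace o := mr.1 (List.mem_toFinset.1 o)
    replace l := mr.1 l
    have u : ∀ b ∈ cmp a.1 F y, b ∈ cmp a.1 F z → z = y := fun b c d =>
      have := (mem_cmp.1 c).2.trans (mem_cmp.1 d).2.symm
      le_antisymm (o.2.2 y (mem_cmp.2 ⟨l.2.1, Rc.symm this⟩)) (l.2.2 z (mem_cmp.2 ⟨o.2.1, this⟩))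
    by_cases x1 : x ∈ cmp a.1 F y
    · exact u x x1 (r.1.2.elim id fun ⟨b, c, d⟩ => cmp_cl c (mem_cmp.1 x1).1 d)
    obtain ⟨b, b1, b2⟩ := n.resolve_left x1
    have x2 : x ∉ cmp a.1 F z := fun x2 => x1 (cmp_cl b1 (mem_cmp.1 x2).1 b2)
    obtain ⟨c, c1, c2⟩ := r.1.2.resolve_left x2
    by_cases bc : b = c
    · exact u b b1 (bc ▸ c1)
    obtain ⟨k, k1, k2⟩ : ∃ k < j + 1, a.1.adjB x (f k) := by
      obtain v | ⟨k, k1, k2⟩ := (K y l.2.1).up x x1 b b1 b2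
      · refine ⟨j, by omega, sy ?_⟩
        simpa [v, Function.update_of_ne] using ((K y l.2.1).ip j (j + 1) (by omega) (by omega)).1
      · exact ⟨k, k1, by rwa [Function.update_of_ne k1.ne] at k2⟩
    have q : ∀ {b y}, b ∈ cmp a.1 F y → ¬ a.1.adjB b (f k) := fun i l => by
      by_cases d : k = j
      exacts [(s i).2 (d ▸ sy l), h.ac k (by omega) _ (s i).1 (sy l)]
    exact u b b1 (cmp_cl c1 (mem_cmp.1 b1).1 ((hC x b c _ b2 c2 k2 bc (fun v => h.nD k (by omega) (v ▸ (s b1).1))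
      fun v => h.nD k (by omega) (v ▸ (s c1).1)).resolve_right (by simp [q b1, q c1])))

end Pool.Agent.H.MP_5be563_lc
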