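import Pool.Agent.H.MP_5be563_lc.B

namespace Pool.Agent.H.MP_5be563_lc

open Pool.Agent.Lib.CX Relation Finset SimpleGraph

def cd (a : Inst) : ℕ := (a.2.1.map Rat.den).prod
def inp (a : Inst) (r : ℕ) : I :=
  (a.1, a.2.1.map fun q => q.num.toNat * (cd a / q.den), a.2.2.1.filter fun x => decide (x < a.1.n), r)
def top (g : Gr) (r : ℕ) : List ℕ := (List.range g.n).filter fun x => decide (x ≠ r ∧ rc g (List.range g.n) r x)
def fin (a : Inst) (r : ℕ) (X : List ℕ) : Bool := decide (val (inp a r) (List.range a.1.n) [r] X ∧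
  (wt (inp a r) X [] : ℤ) * a.2.2.2.den ≤ a.2.2.2.num * cd a)
def ans (t : ℕ) (a : Inst) : Bool :=
  (List.range a.1.n).any fun r => fin a r (sol (t + t) t (inp a r, top a.1 r, r, [r]))

section
variable {α : Type} [Enc α] {a : α → Inst} {q : α → ℚ} {x : α → ℕ}
@[fun_prop] theorem PT.num (h : PT q) : PT fun i => (q i).num :=
  (h.cast (f := fun i => ((q i).num, (q i).den)) fun _ => rfl).fst
@[fun_prop] theorem PT.den (h : PT q) : PT fun i => (q i).den :=
  (h.cast (f := fun i => ((q i).num, (q i).den)) fun _ => rfl).snd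
@[fun_prop] theorem PT.cd (h : PT a) : PT fun i => cd (a i) := by unfold MP_5be563_lc.cd; fun_prop
@[fun_prop] theorem PT.inp (h : PT a) (hx : PT x) : PT fun i => inp (a i) (x i) := by unfold MP_5be563_lc.inp; fun_prop
theorem PT.ans (t : ℕ) : PT (ans t) := by
  have := PT.sol (t + t) t
  unfold MP_5be563_lc.ans MP_5be563_lc.fin MP_5be563_lc.top; fun_prop
end

variable {g : Gr} {a : Inst} {A : ℕ → Prop} {t r : ℕ}

theorem reach_iff {S : Set (Fin g.n)} (h : ∀ v, v ∈ S ↔ A v) (u v : S) : (g.G.induce S).Reachable u v ↔ Rc g A u v := by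
  refine ⟨fun e => ?_, fun e => ?_⟩
  · rw [reachable_iff_reflTransGen] at e
    induction e with
    | refl => exact .refl
    | @tail b c _ e ih => exact ih.tail ⟨(h _).1 b.2, (h _).1 c.2, (g.adjB_iff ..).2 e⟩
  · generalize hy : v.1.1 = y at e
    induction e generalizing v with
    | refl => rw [Subtype.ext (Fin.ext hy)]
    | @tail b c _ e ih =>
      subst hy
      exact (ih ⟨⟨b, lt (sy e.2.2)⟩, (h _).2 e.1⟩ rfl).trans (Adj.reachable ((g.adjB_iff ..).1 e.2.2))

theorem ws_le (hw : ∀ v, 0 < a.w v) {S : Finset (Fin a.1.n)} (h : ∀ v, v ∈ S ↔ A v) :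
    (ws (inp a r) A : ℤ) * a.2.2.2.den ≤ a.2.2.2.num * cd a ↔ ∑ u ∈ S, a.w u ≤ a.2.2.2 := by
  classical
  have c : (0 : ℚ) < cd a := by
    exact_mod_cast List.prod_pos fun x e => by obtain ⟨q, -, rfl⟩ := List.mem_map.1 e; exact q.pos
  have : (ws (inp a r) A : ℚ) = (∑ u ∈ S, a.w u) * cd a := by
    rw [ws, show (inp a r).1.n = a.1.n from rfl, ← Fin.sum_univ_eq_sum_range (fun x => if A x then (inp a r).2.1.getD x 0 else 0), sum_mul, ← sum_filter,
      Nat.cast_sum]
    refine sum_congr (Finset.ext fun v => by simpa using (h v).symm) fun v _ => ?_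
    have := hw v
    unfold Inst.w at *
    by_cases l : v.1 < a.2.1.length
    · have d : _ ∣ cd a := List.dvd_prod (List.mem_map_of_mem (f := Rat.den) (List.getElem_mem l))
      simp only [inp, List.getD_eq_getElem?_getD, List.getElem?_map, List.getElem?_eq_getElem l, Option.map_some,
        Option.getD_some] at this ⊢
      rw [Nat.cast_mul, Nat.cast_div_charZero d, ← Int.cast_natCast, Int.toNat_of_nonneg (Rat.num_nonneg.2 this.le),
        mul_div_left_comm, Rat.num_div_den, mul_comm]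
    · simp [List.getD_eq_getElem?_getD, List.getElem?_eq_none (not_lt.1 l)] at this
  rw [← Int.cast_le (R := ℚ)]
  push_cast
  rw [this, mul_right_comm, mul_le_mul_iff_left₀ c, ← le_div_iff₀ (by exact_mod_cast a.2.2.2.pos), Rat.num_div_den]

theorem noP (h : Free (pathGraph t) g.G) (f : ℕ → ℕ) : ¬ IP g f (t + 2) := fun e => by
  have l : ∀ i : Fin t, f i < g.n := fun i => lt (sy ((e i (i + 1) (by omega) (by omega)).1.2 rfl))
  refine h.false ⟨⟨fun i => ⟨f i, l i⟩, fun i j c => ?_⟩, fun {i j} => ?_⟩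
  · have c := congrArg Fin.val c
    exact Fin.ext (le_antisymm (not_lt.1 fun n => (e j i n (by omega)).2 c.symm) (not_lt.1 fun n => (e i j n (by omega)).2 c))
  · simp only [Function.Embedding.coeFn_mk, ← Gr.adjB_iff, pathGraph_adj]
    obtain n | n | n := lt_trichotomy i.1 j
    · rw [(e i j n (by omega)).1]; omega
    · simp [n, ir]
    · rw [show g.adjB (f i) (f j) ↔ g.adjB (f j) (f i) from ⟨sy, sy⟩, (e j i n (by omega)).1]; omega

theorem noC (h : Free (completeBipartiteGraph (Fin 1) (Fin 3)) g.G) (u x y z : ℕ) (a : g.adjB u x) (b : g.adjB u y)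
    (c : g.adjB u z) (d : x ≠ y) (e : x ≠ z) (f : y ≠ z) : g.adjB x y ∨ g.adjB x z ∨ g.adjB y z := by
  lift u to Fin g.n using lt (sy a)
  lift x to Fin g.n using lt a
  lift y to Fin g.n using lt b
  lift z to Fin g.n using lt c
  by_contra n
  simp only [Gr.adjB_iff, not_or, Ne, ← Fin.ext_iff] at *
  have := a.ne
  have := b.ne
  have := c.ne
  have := a.symm
  have := b.symm
  have := c.symm
  have := mt Adj.symm n.1
  have := mt Adj.symm n.2.1
  have := mt Adj.symm n.2.2
  refine h.false ⟨⟨Sum.elim (fun _ => u) ![x, y, z], fun i j => ?_⟩, fun {i j} => ?_⟩ <;>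
    rcases i with i | i <;> rcases j with j | j <;> fin_cases i <;> fin_cases j <;> simp [*, @eq_comm _ _ u, Ne.symm d,
      Ne.symm e, Ne.symm f]

theorem ans_iff (hC : Free (completeBipartiteGraph (Fin 1) (Fin 3)) a.1.G) (hP : Free (pathGraph t) a.1.G)
    (hw : ∀ v, 0 < a.w v) : VST a ↔ ans (t + 2) a := by
  simp only [ans, List.any_eq_true, List.mem_range, fin, decide_eq_true_eq, wt_eq]
  constructor
  · rintro ⟨R, -, h, e⟩
    obtain ⟨r⟩ := h.nonempty
    set S : ℕ → Prop := fun x => ∃ i : x < a.1.n, (⟨x, i⟩ : Fin _) ∈ a.U ∪ R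
    have s : ∀ v : Fin a.1.n, v ∈ a.U ∪ R ↔ S v := fun v => ⟨fun i => ⟨v.2, i⟩, fun i => i.2⟩
    have m : ∀ {x}, x ∈ top a.1 r ↔ x < a.1.n ∧ x ≠ r ∧ Rc a.1 (· ∈ List.range a.1.n) r x := by simp [top, rc_iff]
    have hS : ∀ x, S x → Rc a.1 S x r := fun x i => (reach_iff s ⟨_, i.2⟩ r).1 (h.1 _ _)
    have hU : ∀ x ∈ (inp a r).2.2.1, S x := fun x i => by
      simp only [inp, List.mem_filter, decide_eq_true_eq] at i
      exact ⟨i.2, mem_union_left _ (by simp [Inst.U, i.1])⟩
    have up : ∀ u ∉ top a.1 r, ∀ x ∈ top a.1 r, a.1.adjB u x → u = r := fun u i x j l => by_contra fun n =>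
      i (m.2 ⟨lt (sy l), n, (m.1 j).2.2.tail ⟨List.mem_range.2 (lt l), List.mem_range.2 (lt (sy l)), sy l⟩⟩)
    obtain ⟨i, j⟩ := main (a := inp a r) (S := S) (j := 0) (f := fun _ => r) (D := top a.1 r) (B := [r.1.1]) (noP hP)
      (noC hC) hS hU r.1.2 (t + 2) ⟨fun i j _ _ => by omega, fun _ _ i => (m.1 i).2.1 rfl, by simp,
        fun u i x j l => .inl (up u i x j l), fun x i => by
          replace i := (m.1 i).2
          obtain ⟨i, j⟩ := i
          induction j with
          | refl => exact (i rfl).elim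
          | @tail b c j l ih =>
            have o := m.2 ⟨lt l.2.2, i, j.tail l⟩
            by_cases n : b = r
            · exact ⟨c, o, n ▸ l.2.2, .refl⟩
            · exact (ih n).imp fun u p => ⟨p.1, p.2.1, p.2.2.tail ⟨m.2 ⟨lt (sy l.2.2), n, j⟩, o, l.2.2⟩⟩,
        by simp [inp], fun i => (m.1 i).2.1 rfl, fun x i => List.mem_singleton.1 i ▸ .refl,
        fun u _ i x j l => .inl (List.mem_singleton.2 (up u i x j l))⟩ (by omega)
    refine ⟨r, r.1.2, ?_, le_trans (Int.mul_le_mul_of_nonneg_right (Int.ofNat_le.2 ?_) (by positivity)) ((ws_le (r := r) hw s).2 e)⟩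
    · simp only [val, decide_eq_true_eq] at i ⊢
      refine ⟨i.1, fun x l n => ?_, i.2.2⟩
      by_cases o : x = r
      · exact i.1 x (List.mem_singleton.2 o)
      · exact i.2.1 x l (m.2 ⟨List.mem_range.1 n, o, (hS x (hU x l)).symm.mono fun _ i => List.mem_range.2 i.1⟩)
    · rw [wt_eq] at j
      refine le_trans (b := ws (inp a r) (· = r.1.1) + _) ?_ ((Nat.add_le_add_left j _).trans ?_)
      all_goals
        simp only [ws]
        rw [← sum_add_distrib]
        refine sum_le_sum fun x _ => ?_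
        have := (s r).1 r.2
        by_cases l : x = r <;> simp only [l, List.mem_singleton, not_true, and_false, if_true, if_false, this, add_zero,
          zero_add, not_false_eq_true, and_true, List.not_mem_nil, le_refl]
      · split_ifs; exacts [le_rfl, Nat.zero_le _]
      · split_ifs with b c; exacts [le_rfl, (c b.1.1).elim, Nat.zero_le _, le_rfl]
  · rintro ⟨r, l, h, e⟩
    generalize sol _ _ _ = X at h e
    simp only [val, decide_eq_true_eq, rc_iff] at h
    have u : a.U ∪ (univ.filter fun v : Fin a.1.n => v.1 ∈ X) \ a.U = univ.filter fun v : Fin a.1.n => v.1 ∈ X :=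
      union_sdiff_of_subset fun v i => by simpa using h.2.1 v (by simpa [inp, Inst.U] using i) (List.mem_range.2 v.2)
    refine ⟨_, sdiff_disjoint, by
      rw [u]
      exact (connected_iff_exists_forall_reachable _).2 ⟨⟨⟨r, l⟩, by simpa using h.1⟩, fun v =>
        ((reach_iff (A := (· ∈ X)) (by simp) _ _).2 (h.2.2 v (by simpa using v.2))).symm⟩, by
      rw [u]; exact (ws_le hw (by simp)).1 e⟩

end Pool.Agent.H.MP_5be563_lc
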