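import Pool.Agent.Lib.lead.CXGraph
import Pool.Agent.Lib.lead.CXRat

namespace Pool.Agent.H.MP_5be563_lc

open Pool.Agent.Lib.CX

/-- graph, list of vertex weights, list of terminals, bound -/
abbrev Inst := Gr × List ℚ × List ℕ × ℚ

def Inst.w (a : Inst) (v : Fin a.1.n) : ℚ := a.2.1.getD v 0

def Inst.U (a : Inst) : Finset (Fin a.1.n) := Finset.univ.filter fun v => v.1 ∈ a.2.2.1

/-- VERTEX STEINER TREE -/
def VST (a : Inst) : Prop :=
  ∃ R : Finset (Fin a.1.n), Disjoint R a.U ∧ (a.1.G.induce ↑(a.U ∪ R)).Connected ∧ ∑ u ∈ a.U ∪ R, a.w u ≤ a.2.2.2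

/-- no induced subgraph of `G` is isomorphic to `H` -/
def Free {V W : Type} (H : SimpleGraph W) (G : SimpleGraph V) : Prop := IsEmpty (H ↪g G)

end Pool.Agent.H.MP_5be563_lc
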